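import Mathlib

set_option autoImplicit false

namespace Pool.Agent.Results.MP_1664c7_al.Char3

universe u

/-- `IsProd S k a`: `a` is a product, in some bracketing, of `k` elements of `S`. -/
inductive IsProd {A : Type u} [Mul A] (S : Set A) : ℕ → A → Prop
  | one {a : A} : a ∈ S → IsProd S 1 a
  | mul {i j : ℕ} {a b : A} : IsProd S i a → IsProd S j b → IsProd S (i + j) (a * b)

variable (F : Type u) [Field F]

/-- Hurwitz series. -/
def C : Type u := ℕ → F

instance : AddCommGroup (C F) := inferInstanceAs (AddCommGroup (ℕ → F))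
instance : Module F (C F) := inferInstanceAs (Module F (ℕ → F))

variable {F}

def D (f : C F) : C F := fun n => f (n + 1)

def m : ℕ → C F → C F → F
  | 0, f, g => f 0 * g 0
  | n + 1, f, g => m n (D f) g + m n f (D g)

def e : C F := fun n => if n = 0 then 1 else 0

def phi (f : C F) : C F := fun n => Nat.rec 0 (fun k _ => f k) n

theorem ev_add (f g : C F) (n : ℕ) : (f + g) n = f n + g n := rfl
theorem ev_sub (f g : C F) (n : ℕ) : (f - g) n = f n - g n := rfl
theorem ev_smul (r : F) (f : C F) (n : ℕ) : (r • f) n = r * f n := rfl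
theorem D_add (f g : C F) : D (f + g) = D f + D g := rfl
theorem D_sub (f g : C F) : D (f - g) = D f - D g := rfl
theorem D_smul (r : F) (f : C F) : D (r • f) = r • D f := rfl
theorem D_zero : D (0 : C F) = 0 := rfl
theorem D_e : D (e : C F) = 0 := rfl
theorem D_phi (f : C F) : D (phi f) = f := rfl
theorem phi0 (f : C F) : phi f 0 = 0 := rfl
theorem phi_add (f g : C F) : phi (f + g) = phi f + phi g := by
  funext n; cases n
  · simp [ev_add, phi0]
  · rfl
theorem phi_smul (r : F) (f : C F) : phi (r • f) = r • phi f := by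
  funext n; cases n
  · simp [ev_smul, phi0]
  · rfl
theorem phi_zero : phi (0 : C F) = 0 := by
  funext n; cases n <;> rfl

theorem m_comm (n : ℕ) : ∀ f g : C F, m n f g = m n g f := by
  induction n with
  | zero => intro f g; simp [m, mul_comm]
  | succ n ih => intro f g; simp only [m]; rw [ih (D f), ih f, add_comm]

theorem m_add (n : ℕ) : ∀ f g h : C F, m n (f + g) h = m n f h + m n g h := by
  induction n with
  | zero => intro f g h; simp [m, ev_add, add_mul]
  | succ n ih => intro f g h; simp only [m, D_add, ih]; ring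

theorem m_smul (n : ℕ) (r : F) : ∀ f g : C F, m n (r • f) g = r * m n f g := by
  induction n with
  | zero => intro f g; simp [m, ev_smul, mul_assoc]
  | succ n ih => intro f g; simp only [m, D_smul, ih]; ring

theorem m_zero (n : ℕ) (g : C F) : m n 0 g = 0 := by
  have := m_smul n 0 0 g
  rwa [zero_smul, zero_mul] at this

theorem m_e (n : ℕ) : ∀ g : C F, m n e g = g n := by
  induction n with
  | zero => intro g; simp [m, e]
  | succ n ih => intro g; simp only [m, D_e, m_zero, ih, zero_add]; rfl

def mu (f g : C F) : C F := fun n => m n f g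

theorem D_mu (f g : C F) : D (mu f g) = mu (D f) g + mu f (D g) := rfl

theorem m_assoc (n : ℕ) : ∀ f g h : C F, m n (mu f g) h = m n f (mu g h) := by
  induction n with
  | zero => intro f g h; simp [m, mu, mul_assoc]
  | succ n ih =>
    intro f g h
    simp only [m, D_mu, m_add, ih]
    rw [m_comm n f (_ + _), m_add, m_comm n _ f, m_comm n (mu g (D h)) f]; ring

instance : CommRing (C F) where
  mul := mu
  one := e
  mul_assoc f g h := funext fun n => m_assoc n f g h
  mul_comm f g := funext fun n => m_comm n f g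
  one_mul f := funext fun n => m_e n f
  mul_one f := funext fun n => (m_comm n f e).trans (m_e n f)
  zero_mul f := funext fun n => m_zero n f
  mul_zero f := funext fun n => (m_comm n f 0).trans (m_zero n f)
  left_distrib f g h := funext fun n => by
    show m n f (g + h) = m n f g + m n f h
    rw [m_comm, m_add, m_comm n g, m_comm n h]
  right_distrib f g h := funext fun n => m_add n f g h

theorem D_mul (f g : C F) : D (f * g) = D f * g + f * D g := rfl
theorem mul0 (f g : C F) : (f * g) 0 = f 0 * g 0 := rfl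
theorem smul_mul (r : F) (f g : C F) : (r • f) * g = r • (f * g) := funext fun n => m_smul n r f g
theorem mul_smul' (r : F) (f g : C F) : f * (r • g) = r • (f * g) := by
  rw [mul_comm, smul_mul, mul_comm]

theorem eq_zero (f : C F) (h0 : f 0 = 0) (h1 : D f = 0) : f = 0 := by
  funext n; cases n
  · exact h0
  · exact congrFun h1 _

theorem three [CharP F 3] (f : C F) : 3 * f = 0 := by
  have : 3 * f = f + f + f := by ring
  rw [this]; funext n
  show f n + f n + f n = 0
  have h : (3 : F) = 0 := CharP.cast_eq_zero F 3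
  linear_combination f n * h

theorem cube [CharP F 3] (w : C F) : phi w * phi w * phi w = 0 := by
  refine eq_zero _ (by simp [mul0, phi0]) ?_
  simp only [D_mul, D_phi]
  linear_combination three (w * phi w * phi w)

variable (F)

def A : Type u := C F × C F × C F

instance : AddCommGroup (A F) := inferInstanceAs (AddCommGroup (C F × C F × C F))
instance : Module F (A F) := inferInstanceAs (Module F (C F × C F × C F))

variable {F}

instance : Mul (A F) := ⟨fun x y =>
  (x.1 * phi y.2.2 - y.1 * phi x.2.2, x.2.1 * phi y.2.2 - y.2.1 * phi x.2.2,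
    x.1 * y.2.1 - y.1 * x.2.1 + x.2.2 * phi y.2.2 - y.2.2 * phi x.2.2)⟩

theorem m1 (x y : A F) : (x * y).1 = x.1 * phi y.2.2 - y.1 * phi x.2.2 := rfl
theorem m2 (x y : A F) : (x * y).2.1 = x.2.1 * phi y.2.2 - y.2.1 * phi x.2.2 := rfl
theorem m3 (x y : A F) : (x * y).2.2 =
    x.1 * y.2.1 - y.1 * x.2.1 + x.2.2 * phi y.2.2 - y.2.2 * phi x.2.2 := rfl
theorem a1 (x y : A F) : (x + y).1 = x.1 + y.1 := rfl
theorem a2 (x y : A F) : (x + y).2.1 = x.2.1 + y.2.1 := rfl
theorem a3 (x y : A F) : (x + y).2.2 = x.2.2 + y.2.2 := rfl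
theorem s1 (r : F) (x : A F) : (r • x).1 = r • x.1 := rfl
theorem s2 (r : F) (x : A F) : (r • x).2.1 = r • x.2.1 := rfl
theorem s3 (r : F) (x : A F) : (r • x).2.2 = r • x.2.2 := rfl
theorem z1 : (0 : A F).1 = 0 := rfl
theorem z2 : (0 : A F).2.1 = 0 := rfl
theorem z3 : (0 : A F).2.2 = 0 := rfl

theorem ext' {x y : A F} (h1 : x.1 = y.1) (h2 : x.2.1 = y.2.1) (h3 : x.2.2 = y.2.2) : x = y :=
  Prod.ext h1 (Prod.ext h2 h3)

instance : NonUnitalNonAssocRing (A F) where
  left_distrib x y z := by
    apply ext' <;> simp only [m1, m2, m3, a1, a2, a3, phi_add] <;> ring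
  right_distrib x y z := by
    apply ext' <;> simp only [m1, m2, m3, a1, a2, a3, phi_add] <;> ring
  zero_mul x := by
    apply ext' <;> simp only [m1, m2, m3, z1, z2, z3, phi_zero] <;> ring
  mul_zero x := by
    apply ext' <;> simp only [m1, m2, m3, z1, z2, z3, phi_zero] <;> ring

instance : IsScalarTower F (A F) (A F) := ⟨fun r x y => by
  show (r • x) * y = r • (x * y)
  apply ext' <;>
    simp only [m1, m2, m3, s1, s2, s3, phi_smul, smul_mul, mul_smul', smul_sub, smul_add]⟩

instance : SMulCommClass F (A F) (A F) := ⟨fun r x y => by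
  show r • (x * y) = x * (r • y)
  apply ext' <;>
    simp only [m1, m2, m3, s1, s2, s3, phi_smul, smul_mul, mul_smul', smul_sub, smul_add]⟩

theorem sq0 (x : A F) : x * x = 0 := by
  apply ext' <;> simp only [m1, m2, m3, z1, z2, z3] <;> ring

theorem engel [CharP F 3] (x y : A F) : x * y * y * y = 0 := by
  have hu := cube y.2.2
  have key : phi (x * y * y).2.2 + phi y.2.2 * phi (x * y).2.2
      + phi y.2.2 * phi y.2.2 * phi x.2.2 = 0 := by
    refine eq_zero _ (by simp [ev_add, mul0, phi0]) ?_
    simp only [D_add, D_mul, D_phi]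
    rw [m3 (x * y), m1, m2]
    generalize phi (x * y).2.2 = v1
    rw [m3]
    linear_combination three (phi y.2.2 * (x.1 * y.2.1 - y.1 * x.2.1 + phi y.2.2 * x.2.2))
  apply ext'
  · rw [m1, m1, m1, z1]
    linear_combination x.1 * hu - y.1 * key
  · rw [m2, m2, m2, z2]
    linear_combination x.2.1 * hu - y.2.1 * key
  · rw [m3 (x * y * y), m1, m1, m2, m2, z3]
    generalize phi (x * y * y).2.2 = v2 at key ⊢
    rw [m3 (x * y), m1, m2]
    generalize phi (x * y).2.2 = v1 at key ⊢
    rw [m3]
    linear_combination x.2.2 * hu - y.2.2 * key +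
      three (phi y.2.2 * phi y.2.2 * (x.1 * y.2.1 - y.1 * x.2.1))

/-- Over every field of characteristic 3 there is an anticommutative 3-Engel algebra with a
2-generated subalgebra that is not nilpotent. -/
theorem result (F : Type u) [Field F] [CharP F 3] :
    ∃ (A : Type u) (_ : NonUnitalNonAssocRing A) (_ : Module F A) (_ : IsScalarTower F A A)
      (_ : SMulCommClass F A A), (∀ x : A, x * x = 0) ∧ (∀ x y : A, ((x * y) * y) * y = 0) ∧
      ∃ x y : A, ∀ N : ℕ, 1 ≤ N →
        ∃ a : A, IsProd (NonUnitalAlgebra.adjoin F {x, y} : Set A) N a ∧ a ≠ 0 := by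
  let x : A F := (1, 0, 0)
  let y : A F := (0, 1, 0)
  let S : Set (A F) := (NonUnitalAlgebra.adjoin F {x, y} : NonUnitalSubalgebra F (A F))
  have hx : x ∈ S := NonUnitalAlgebra.subset_adjoin F (by simp)
  have hy : y ∈ S := NonUnitalAlgebra.subset_adjoin F (by simp)
  have ne : ∀ f : C F, f ≠ 0 → phi f ≠ 0 := fun f h h' => h (by rw [← D_phi f, h', D_zero])
  have one : (1 : C F) ≠ 0 := fun h => one_ne_zero (α := F) (congrFun h 0)
  have key : ∀ k : ℕ, ∃ f : C F, f ≠ 0 ∧ IsProd S (2 * k + 1) ((f, 0, 0) : A F) ∧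
      IsProd S (2 * k + 2) ((0, 0, f) : A F) := by
    have st : ∀ (k : ℕ) (f : C F), IsProd S k ((f, 0, 0) : A F) →
        IsProd S (k + 1) ((0, 0, f) : A F) := fun k f h => by
      have := h.mul (IsProd.one hy)
      convert this using 1
      apply ext' <;> simp [m1, m2, m3, y, phi_zero]
    intro k
    induction k with
    | zero => exact ⟨1, one, IsProd.one hx, st 1 1 (IsProd.one hx)⟩
    | succ k ih =>
      obtain ⟨f, h0, -, h2⟩ := ih
      have h3 : IsProd S (2 * (k + 1) + 1) ((phi f, 0, 0) : A F) := by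
        have := (IsProd.one hx).mul h2
        convert this using 1
        · ring
        · apply ext' <;> simp [m1, m2, m3, x, phi_zero]
      exact ⟨phi f, ne f h0, h3, st _ _ h3⟩
  refine ⟨A F, inferInstance, inferInstance, inferInstance, inferInstance, sq0, engel, x, y,
    fun N hN => ?_⟩
  obtain ⟨k, hk | hk⟩ : ∃ k, N = 2 * k + 1 ∨ N = 2 * k + 2 := ⟨(N - 1) / 2, by omega⟩
  · obtain ⟨f, h0, h1, -⟩ := key k
    exact ⟨_, hk ▸ h1, fun h => h0 (congrArg Prod.fst h)⟩
  · obtain ⟨f, h0, -, h1⟩ := key k
    exact ⟨_, hk ▸ h1, fun h => h0 (congrArg (fun p : A F => p.2.2) h)⟩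

end Pool.Agent.Results.MP_1664c7_al.Char3
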